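import Pool.Agent.Helper66.SB.GoalsB

/-!
Project SB (MP_d3128a_ag), packet EX.
-/

set_option autoImplicit false

open Module MvPolynomial

noncomputable section

namespace Pool.Agent.Helper36.SB

open Pool.Agent.Helper66.SB Helper18.Shgh

theorem order_cancel {P : Fin 2 → ℂ} {m k : ℕ} {A G : R2}
    (hA : A ∉ mI P ^ (k + 1)) (h : A * G ∈ mI P ^ (m + k)) : G ∈ mI P ^ m := by
  rw [mem_mI_pow_order] at *
  rw [map_mul, MvPolynomial.coe_mul, MvPowerSeries.order_mul] at h
  push Not at hA
  by_cases hG : MvPowerSeries.order (tau P G : MvPowerSeries (Fin 2) ℂ) = ⊤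
  · rw [hG]; exact le_top
  obtain ⟨g, hg⟩ := ENat.ne_top_iff_exists.1 hG
  have hA' : MvPowerSeries.order (tau P A : MvPowerSeries (Fin 2) ℂ) ≠ ⊤ := ne_top_of_lt hA
  obtain ⟨a, ha⟩ := ENat.ne_top_iff_exists.1 hA'
  rw [← hg, ← ha] at h
  rw [← ha] at hA
  rw [← hg]
  norm_cast at *
  omega

theorem gEX : G_EX := by
  intro r k w P F hk hF
  have h0 : F ≠ 0 := hF.irr.ne_zero
  have hV : F ∈ V (k : ℤ) := hF.mem.1
  have hdeg : F.totalDegree = k := by
    apply le_antisymm
    · rw [mem_V] at hV
      rcases hV with h | h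
      · exact absurd h h0
      · exact_mod_cast h
    · have h1 := MvPolynomial.le_totalDegree (MvPolynomial.mem_support_iff.2 hF.top)
      rw [Finsupp.sum_single_index rfl] at h1
      exact h1
  refine ⟨h0, ?_, ?_⟩
  · intro hd
    obtain ⟨H, hH⟩ := hd
    have h1 : pderiv 1 F ≠ 0 := by
      intro h
      have h2 := congrArg (coeff (Finsupp.single 1 (k - 1))) h
      rw [coeff_pderiv, coeff_zero, ← Finsupp.single_add, Nat.sub_add_cancel hk] at h2
      rcases mul_eq_zero.mp h2 with h3 | h3
      · exact hF.top h3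
      · rw [Finsupp.single_eq_same] at h3
        have h4 : ((k - 1 : ℕ) : ℂ) + 1 = (k : ℂ) := by
          rw [Nat.cast_sub hk]
          push_cast
          ring
        rw [h4] at h3
        have h5 : k = 0 := by exact_mod_cast h3
        omega
    have h2 : pderiv 1 F ∈ V ((k : ℤ) - 1) := by
      rw [mem_V']
      intro e he
      rw [coeff_pderiv] at he
      have h3 : coeff (e + Finsupp.single 1 1) F ≠ 0 := left_ne_zero_of_mul he
      have h4 := (mem_V'.mp hV) _ h3
      rw [map_add, Finsupp.degree_single] at h4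
      push_cast at h4
      linarith
    have hH0 : H ≠ 0 := by
      rintro rfl
      rw [mul_zero] at hH
      exact h1 hH
    rw [mem_V] at h2
    rcases h2 with h2 | h2
    · exact h1 h2
    · rw [hH, MvPolynomial.totalDegree_mul_of_isDomain h0 hH0, hdeg] at h2
      push_cast at h2
      omega
  · intro δ μ G
    rw [mem_SP, mem_SP]
    have hVi := mul_mem_V_iff (F := G) h0 (n := δ)
    rw [hdeg] at hVi
    rw [hVi]
    constructor
    · rintro ⟨h1, h2⟩
      exact ⟨h1, fun i hi => order_cancel (hF.exact i) (h2 i hi)⟩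
    · rintro ⟨h1, h2⟩
      refine ⟨h1, fun i hi => ?_⟩
      rw [add_comm]
      exact mul_mem_mI_pow (hF.mem.2 i hi) (h2 i hi)

end Pool.Agent.Helper36.SB
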